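import Pool.Agent.Helper32_ABCT.Stmts2

/-!
# LBW, LDS: chart lattices of black and white vertices and of direct sums
-/

open MvPolynomial

namespace ABCT.H28

open ABCT FlatCell

theorem zexp_add {W : Type*} (a b : W →₀ ℕ) : zexp (a + b) = zexp a + zexp b := by
  ext v
  simp [zexp]

theorem zexp_mapDomain {W W' : Type*} (f : W → W') (a : W →₀ ℕ) :
    zexp (a.mapDomain f) = (zexp a).mapDomain f := by
  unfold zexp
  rw [Finsupp.mapDomain_mapRange]
  intro x y
  push_cast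
  rfl

theorem md_neg {W W' : Type*} (f : W → W') (a : W →₀ ℤ) :
    (-a).mapDomain f = -(a.mapDomain f) :=
  map_neg (Finsupp.mapDomain.addMonoidHom f : (W →₀ ℤ) →+ (W' →₀ ℤ)) a

theorem exists_exp {S : Net} (h : S.Valid) {I : Finset ℕ} (hI : I ∈ S.M) :
    ∃ μ, μ ∈ (S.flat.pol I).support := by
  have h1 : S.flat.pol I ≠ 0 := by
    unfold FlatCell.pol
    rw [natpoly_mul_ne_zero_iff]
    refine ⟨natpoly_prod_ne_zero _ _ fun i _ => X_ne_zero _, ?_⟩
    rw [natpoly_rename_ne_zero]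
    exact ((Net.wf' S h).ne I).mpr hI
  obtain ⟨m, hm⟩ := MvPolynomial.ne_zero_iff.mp h1
  exact ⟨m, mem_support_iff.mpr hm⟩

theorem lds_left {S T : Net} (hV : (Net.dsum S T).Valid) {a : S.flat.V →₀ ℤ}
    (ha : a ∈ S.flat.Lam) : a.mapDomain (vdL S T) ∈ (Net.dsum S T).flat.Lam := by
  obtain ⟨K, hK⟩ := (Net.wf' T hV.2.1).nonempty
  obtain ⟨b, hb⟩ := exists_exp hV.2.1 hK
  unfold FlatCell.Lam at ha
  induction ha using AddSubgroup.closure_induction with
  | mem x hx =>
    obtain ⟨I, hI, J, hJ, μ, hμ, ν, hν, rfl⟩ := hx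
    refine AddSubgroup.subset_closure ⟨I ∪ K, (dsum_M _).mpr ⟨I, hI, K, hK, rfl⟩, J ∪ K,
      (dsum_M _).mpr ⟨J, hJ, K, hK, rfl⟩, μ.mapDomain (vdL S T) + b.mapDomain (vdR S T),
      (dsum_exp hV I K hI hK _).mpr ⟨μ, hμ, b, hb, rfl⟩,
      ν.mapDomain (vdL S T) + b.mapDomain (vdR S T),
      (dsum_exp hV J K hJ hK _).mpr ⟨ν, hν, b, hb, rfl⟩, ?_⟩
    rw [zexp_add, zexp_add, zexp_mapDomain, zexp_mapDomain, zexp_mapDomain,
      add_sub_add_right_eq_sub, sub_eq_add_neg, Finsupp.mapDomain_add, md_neg,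
      ← sub_eq_add_neg]
  | zero => rw [Finsupp.mapDomain_zero]; exact AddSubgroup.zero_mem _
  | add x y _ _ hx hy => rw [Finsupp.mapDomain_add]; exact AddSubgroup.add_mem _ hx hy
  | neg x _ hx => rw [md_neg]; exact AddSubgroup.neg_mem _ hx

theorem lds_right {S T : Net} (hV : (Net.dsum S T).Valid) {a : T.flat.V →₀ ℤ}
    (ha : a ∈ T.flat.Lam) : a.mapDomain (vdR S T) ∈ (Net.dsum S T).flat.Lam := by
  obtain ⟨K, hK⟩ := (Net.wf' S hV.1).nonempty
  obtain ⟨b, hb⟩ := exists_exp hV.1 hK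
  unfold FlatCell.Lam at ha
  induction ha using AddSubgroup.closure_induction with
  | mem x hx =>
    obtain ⟨I, hI, J, hJ, μ, hμ, ν, hν, rfl⟩ := hx
    refine AddSubgroup.subset_closure ⟨K ∪ I, (dsum_M _).mpr ⟨K, hK, I, hI, rfl⟩, K ∪ J,
      (dsum_M _).mpr ⟨K, hK, J, hJ, rfl⟩, b.mapDomain (vdL S T) + μ.mapDomain (vdR S T),
      (dsum_exp hV K I hK hI _).mpr ⟨b, hb, μ, hμ, rfl⟩,
      b.mapDomain (vdL S T) + ν.mapDomain (vdR S T),
      (dsum_exp hV K J hK hJ _).mpr ⟨b, hb, ν, hν, rfl⟩, ?_⟩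
    rw [zexp_add, zexp_add, zexp_mapDomain, zexp_mapDomain, zexp_mapDomain,
      add_sub_add_left_eq_sub, sub_eq_add_neg, Finsupp.mapDomain_add, md_neg,
      ← sub_eq_add_neg]
  | zero => rw [Finsupp.mapDomain_zero]; exact AddSubgroup.zero_mem _
  | add x y _ _ hx hy => rw [Finsupp.mapDomain_add]; exact AddSubgroup.add_mem _ hx hy
  | neg x _ hx => rw [md_neg]; exact AddSubgroup.neg_mem _ hx

/-- LDS -/
theorem lds : LdsStmt := by
  intro S T hV m
  constructor
  · intro hm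
    unfold FlatCell.Lam at hm
    induction hm using AddSubgroup.closure_induction with
    | mem x hx =>
      obtain ⟨I, hI, J, hJ, μ, hμ, ν, hν, rfl⟩ := hx
      obtain ⟨I₁, hI₁, I₂, hI₂, rfl⟩ := (dsum_M _).mp hI
      obtain ⟨J₁, hJ₁, J₂, hJ₂, rfl⟩ := (dsum_M _).mp hJ
      obtain ⟨a, ha, b, hb, rfl⟩ := (dsum_exp hV I₁ I₂ hI₁ hI₂ _).mp hμ
      obtain ⟨a', ha', b', hb', rfl⟩ := (dsum_exp hV J₁ J₂ hJ₁ hJ₂ _).mp hν
      refine ⟨zexp a - zexp a', AddSubgroup.subset_closure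
        ⟨I₁, hI₁, J₁, hJ₁, a, ha, a', ha', rfl⟩, zexp b - zexp b',
        AddSubgroup.subset_closure ⟨I₂, hI₂, J₂, hJ₂, b, hb, b', hb', rfl⟩, ?_⟩
      rw [zexp_add, zexp_add, zexp_mapDomain, zexp_mapDomain, zexp_mapDomain, zexp_mapDomain,
        sub_eq_add_neg (zexp a), sub_eq_add_neg (zexp b), Finsupp.mapDomain_add,
        Finsupp.mapDomain_add, md_neg, md_neg]
      abel
    | zero => exact ⟨0, AddSubgroup.zero_mem _, 0, AddSubgroup.zero_mem _, by simp⟩
    | add x y _ _ hx hy =>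
      obtain ⟨a, ha, b, hb, rfl⟩ := hx
      obtain ⟨a', ha', b', hb', rfl⟩ := hy
      refine ⟨a + a', AddSubgroup.add_mem _ ha ha', b + b', AddSubgroup.add_mem _ hb hb', ?_⟩
      rw [Finsupp.mapDomain_add, Finsupp.mapDomain_add]
      abel
    | neg x _ hx =>
      obtain ⟨a, ha, b, hb, rfl⟩ := hx
      refine ⟨-a, AddSubgroup.neg_mem _ ha, -b, AddSubgroup.neg_mem _ hb, ?_⟩
      rw [md_neg, md_neg]
      abel
  · rintro ⟨a, ha, b, hb, rfl⟩
    exact AddSubgroup.add_mem _ (lds_left hV ha) (lds_right hV hb)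

/-! ### black and white vertices -/

/-- the lattice generated by the differences of the label variables of `l` -/
theorem diff_closure {G : Type} [IsEmpty G] (l : Finset ℕ) (hl : l.Nonempty)
    (L : AddSubgroup (ℕ ⊕ G →₀ ℤ))
    (h1 : ∀ i ∈ l, ∀ j ∈ l, Finsupp.single (Sum.inl i) 1 - Finsupp.single (Sum.inl j) 1 ∈ L)
    (h2 : L ≤ AddSubgroup.closure {m | ∃ i ∈ l, ∃ j ∈ l,
      m = Finsupp.single (Sum.inl i) 1 - Finsupp.single (Sum.inl j) 1})
    (m : ℕ ⊕ G →₀ ℤ) :
    m ∈ L ↔ (∀ i : ℕ, i ∉ l → m (Sum.inl i) = 0) ∧ ∑ i ∈ l, m (Sum.inl i) = 0 := by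
  classical
  constructor
  · intro hm
    have hm' := h2 hm
    induction hm' using AddSubgroup.closure_induction with
    | mem x hx =>
      obtain ⟨i, hi, j, hj, rfl⟩ := hx
      refine ⟨fun k hk => ?_, ?_⟩
      · have e1 : i ≠ k := fun h => hk (h ▸ hi)
        have e2 : j ≠ k := fun h => hk (h ▸ hj)
        simp [Finsupp.single_apply, e1, e2]
      · simp [Finsupp.single_apply, hi, hj]
    | zero => simp
    | add x y hx' hy' hx hy =>
      have hx := hx (by
        have := hx'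
        exact (AddSubgroup.closure_le L).mpr (by rintro _ ⟨i, hi, j, hj, rfl⟩; exact h1 i hi j hj) this)
      have hy := hy (by
        have := hy'
        exact (AddSubgroup.closure_le L).mpr (by rintro _ ⟨i, hi, j, hj, rfl⟩; exact h1 i hi j hj) this)
      refine ⟨fun i hi => ?_, ?_⟩
      · rw [Finsupp.add_apply, hx.1 i hi, hy.1 i hi, add_zero]
      · simp only [Finsupp.add_apply, Finset.sum_add_distrib, hx.2, hy.2, add_zero]
    | neg x hx' hx =>
      have hx := hx (by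
        have := hx'
        exact (AddSubgroup.closure_le L).mpr (by rintro _ ⟨i, hi, j, hj, rfl⟩; exact h1 i hi j hj) this)
      refine ⟨fun i hi => ?_, ?_⟩
      · rw [Finsupp.neg_apply, hx.1 i hi, neg_zero]
      · simp only [Finsupp.neg_apply, Finset.sum_neg_distrib, hx.2, neg_zero]
  · rintro ⟨h3, h4⟩
    obtain ⟨j, hj⟩ := hl
    have e : m = ∑ i ∈ l, m (Sum.inl i) •
        (Finsupp.single (Sum.inl i) 1 - Finsupp.single (Sum.inl j) 1 : ℕ ⊕ G →₀ ℤ) := by
      ext v
      rcases v with k | g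
      · rw [Finsupp.finsetSum_apply]
        simp only [Finsupp.smul_apply, Finsupp.sub_apply, Finsupp.single_apply, Sum.inl.injEq,
          smul_eq_mul, mul_sub, Finset.sum_sub_distrib, mul_ite, mul_one, mul_zero]
        have e1 : ∑ i ∈ l, (if j = k then m (Sum.inl i) else 0) = 0 := by
          split_ifs
          · exact h4
          · simp
        rw [e1, sub_zero, Finset.sum_ite_eq' l k (fun i => m (Sum.inl i))]
        split_ifs with hk
        · rfl
        · exact h3 k hk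
      · exact (IsEmpty.false g).elim
    rw [e]
    exact AddSubgroup.sum_mem _ fun i hi => AddSubgroup.zsmul_mem _ (h1 i hi j hj) _

theorem black_pol (l : Finset ℕ) (x : ℕ) (hx : x ∈ l) :
    (Net.black l).flat.pol {x} = X (Sum.inl x) := by
  unfold FlatCell.pol
  have h : (Net.black l).flat.Δ {x} = 1 := by
    change Net.Δ (Net.black l) {x} = 1
    rw [Net.Δ, if_pos]
    exact Finset.mem_image_of_mem _ hx
  rw [h, map_one, mul_one, Finset.prod_singleton]

theorem white_pol (l : Finset ℕ) (x : ℕ) (hx : x ∈ l) :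
    (Net.white l).flat.pol (l.erase x) = ∏ i ∈ l.erase x, X (Sum.inl i) := by
  unfold FlatCell.pol
  have h : (Net.white l).flat.Δ (l.erase x) = 1 := by
    change Net.Δ (Net.white l) (l.erase x) = 1
    rw [Net.Δ, if_pos]
    exact Finset.mem_image_of_mem _ hx
  rw [h, map_one, mul_one]

theorem prod_X_support {σ : Type*} (s : Finset ℕ) (f : ℕ → σ) (m : σ →₀ ℕ) :
    m ∈ (∏ i ∈ s, (X (f i) : MvPolynomial σ ℕ)).support ↔
      m = ∑ i ∈ s, Finsupp.single (f i) 1 := by
  classical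
  have h : (∏ i ∈ s, (X (f i) : MvPolynomial σ ℕ)) =
      monomial (∑ i ∈ s, Finsupp.single (f i) 1) 1 := (monomial_sum_one s _).symm
  rw [h, support_monomial]
  simp

theorem zexp_single {W : Type*} (v : W) : zexp (Finsupp.single v 1) = Finsupp.single v 1 := by
  unfold zexp
  rw [Finsupp.mapRange_single]
  rfl

theorem zexp_sum {W : Type*} (s : Finset ℕ) (f : ℕ → W) :
    zexp (∑ i ∈ s, Finsupp.single (f i) 1) = ∑ i ∈ s, Finsupp.single (f i) 1 := by
  classical
  induction s using Finset.induction_on with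
  | empty => ext v; simp [zexp]
  | insert a s ha ih => rw [Finset.sum_insert ha, Finset.sum_insert ha, zexp_add, ih, zexp_single]

theorem black_exp (l : Finset ℕ) (x : ℕ) (hx : x ∈ l) (μ : (Net.black l).flat.V →₀ ℕ) :
    μ ∈ ((Net.black l).flat.pol {x}).support ↔ μ = Finsupp.single (Sum.inl x) 1 := by
  rw [black_pol l x hx, support_X]
  simp

theorem white_exp (l : Finset ℕ) (x : ℕ) (hx : x ∈ l) (μ : (Net.white l).flat.V →₀ ℕ) :
    μ ∈ ((Net.white l).flat.pol (l.erase x)).support ↔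
      μ = ∑ i ∈ l.erase x, Finsupp.single (Sum.inl i) 1 := by
  rw [white_pol l x hx]
  exact prod_X_support _ _ _

/-- LBW -/
theorem lbw : LbwStmt := by
  intro l hl
  constructor
  · refine diff_closure (G := Empty) l hl _ ?_ ?_
    · intro i hi j hj
      refine AddSubgroup.subset_closure ⟨{i}, Finset.mem_image_of_mem _ hi, {j},
        Finset.mem_image_of_mem _ hj, _, (black_exp l i hi _).mpr rfl, _,
        (black_exp l j hj _).mpr rfl, ?_⟩
      rw [zexp_single, zexp_single]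
    · refine AddSubgroup.closure_mono ?_
      rintro m ⟨I, hI, J, hJ, μ, hμ, ν, hν, rfl⟩
      obtain ⟨i, hi, rfl⟩ := Finset.mem_image.mp hI
      obtain ⟨j, hj, rfl⟩ := Finset.mem_image.mp hJ
      rw [(black_exp l i hi _).mp hμ, (black_exp l j hj _).mp hν, zexp_single, zexp_single]
      exact ⟨i, hi, j, hj, rfl⟩
  · have key : ∀ i ∈ l, ∀ j ∈ l,
        (∑ k ∈ l.erase j, Finsupp.single (Sum.inl k) 1 : ℕ ⊕ Empty →₀ ℤ) -
          ∑ k ∈ l.erase i, Finsupp.single (Sum.inl k) 1 =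
        Finsupp.single (Sum.inl i) 1 - Finsupp.single (Sum.inl j) 1 := by
      intro i hi j hj
      rw [Finset.sum_erase_eq_sub hi, Finset.sum_erase_eq_sub hj]
      abel
    refine diff_closure (G := Empty) l hl _ ?_ ?_
    · intro i hi j hj
      refine AddSubgroup.subset_closure ⟨l.erase j, Finset.mem_image_of_mem _ hj, l.erase i,
        Finset.mem_image_of_mem _ hi, _, (white_exp l j hj _).mpr rfl, _,
        (white_exp l i hi _).mpr rfl, ?_⟩
      rw [zexp_sum, zexp_sum]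
      exact (key i hi j hj).symm
    · refine AddSubgroup.closure_mono ?_
      rintro m ⟨I, hI, J, hJ, μ, hμ, ν, hν, rfl⟩
      obtain ⟨i, hi, rfl⟩ := Finset.mem_image.mp hI
      obtain ⟨j, hj, rfl⟩ := Finset.mem_image.mp hJ
      rw [(white_exp l i hi _).mp hμ, (white_exp l j hj _).mp hν, zexp_sum, zexp_sum]
      exact ⟨j, hj, i, hi, key j hj i hi⟩

end ABCT.H28
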