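import Pool.Agent.Helper32_ABCT.EStmts
import Pool.Agent.Helper28_ABCT.Lattice

/-!
# EEXP: expansion by label monomials
-/

open MvPolynomial

namespace ABCT.H28

open ABCT FlatCell

section Sum

variable {R S₁ S₂ : Type*} [CommSemiring R]

theorem sumAlg_monomial (a : S₁ →₀ ℕ) (b : S₂ →₀ ℕ) (c : R) :
    sumAlgEquiv R S₁ S₂ (monomial (a.sumElim b) c) = monomial a (monomial b c) := by
  have h1 : (monomial (a.sumElim b) c : MvPolynomial (S₁ ⊕ S₂) R) =
      rename Sum.inl (monomial a 1) * rename Sum.inr (monomial b c) := by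
    rw [rename_monomial, rename_monomial, monomial_mul, one_mul]
    have e : a.sumElim b = a.mapDomain Sum.inl + b.mapDomain Sum.inr := by
      ext v
      rcases v with v | v
      · rw [Finsupp.add_apply, Finsupp.mapDomain_apply Sum.inl_injective,
          Finsupp.mapDomain_of_notMem_range _ _ (by simp), add_zero, Finsupp.sumElim_inl]
      · rw [Finsupp.add_apply, Finsupp.mapDomain_apply Sum.inr_injective,
          Finsupp.mapDomain_of_notMem_range _ _ (by simp), zero_add, Finsupp.sumElim_inr]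
    rw [e]
  have h2 : sumAlgEquiv R S₁ S₂ (rename Sum.inl (monomial a 1)) = monomial a 1 := by
    have := DFunLike.congr_fun (sumAlgEquiv_comp_rename_inl (R := R) (S₁ := S₁) (S₂ := S₂))
      (monomial a 1)
    refine Eq.trans this ?_
    rw [mapAlgHom_apply]
    simp [map_monomial]
  have h3 : sumAlgEquiv R S₁ S₂ (rename Sum.inr (monomial b c)) = C (monomial b c) := by
    have := DFunLike.congr_fun (sumAlgEquiv_comp_rename_inr (R := R) (S₁ := S₁) (S₂ := S₂))
      (monomial b c)
    exact this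
  rw [h1, map_mul, h2, h3, mul_comm, C_mul_monomial, mul_one]

theorem coeff_sumAlg (Q : MvPolynomial (S₁ ⊕ S₂) R) (a : S₁ →₀ ℕ) (b : S₂ →₀ ℕ) :
    coeff b (coeff a (sumAlgEquiv R S₁ S₂ Q)) = coeff (a.sumElim b) Q := by
  classical
  induction Q using MvPolynomial.induction_on' with
  | monomial u c =>
    obtain ⟨⟨a', b'⟩, rfl⟩ : ∃ p : (S₁ →₀ ℕ) × (S₂ →₀ ℕ), p.1.sumElim p.2 = u :=
      ⟨Finsupp.sumFinsuppEquivProdFinsupp u, by
        ext v
        rcases v with v | v
        · simp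
        · simp⟩
    dsimp only
    rw [sumAlg_monomial, coeff_monomial, coeff_monomial]
    by_cases h1 : a' = a
    · subst h1
      rw [if_pos rfl, coeff_monomial]
      by_cases h2 : b' = b
      · subst h2; simp
      · rw [if_neg h2, if_neg]
        intro h
        apply h2
        ext v
        have := DFunLike.congr_fun h (Sum.inr v)
        simpa using this
    · rw [if_neg h1, coeff_zero, if_neg]
      intro h
      apply h1
      ext v
      have := DFunLike.congr_fun h (Sum.inl v)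
      simpa using this
  | add p q hp hq => rw [map_add, coeff_add, coeff_add, coeff_add, hp, hq]

end Sum

/-- the polynomial `N(p)` -/
noncomputable def NP (S : FlatCell) (N : MvPolynomial (Finset ℕ) ℂ) : MvPolynomial S.V ℂ :=
  aeval (fun I => MvPolynomial.map (Nat.castRingHom ℂ) (S.pol I)) N

theorem aeval_pol (S : FlatCell) {K : Type} [Field K] [Algebra ℂ K] (y : S.V → K)
    (I : Finset ℕ) : aeval y (MvPolynomial.map (Nat.castRingHom ℂ) (S.pol I)) = S.ev y I := by
  rw [FlatCell.ev, aeval_def, eval₂_map]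
  congr 1
  exact Subsingleton.elim _ _

theorem aeval_NP (S : FlatCell) {K : Type} [Field K] [Algebra ℂ K] (y : S.V → K)
    (N : MvPolynomial (Finset ℕ) ℂ) : aeval y (NP S N) = aeval (fun I => S.ev y I) N := by
  unfold NP
  have h : (aeval y : MvPolynomial S.V ℂ →ₐ[ℂ] K).comp
      (aeval (fun I => MvPolynomial.map (Nat.castRingHom ℂ) (S.pol I))) =
      aeval (fun I => S.ev y I) := by
    apply algHom_ext
    intro I
    rw [AlgHom.comp_apply, aeval_X, aeval_X, aeval_pol]
  exact DFunLike.congr_fun h N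

theorem aeval_sum {S₁ S₂ K : Type} [Field K] [Algebra ℂ K] (y : S₁ ⊕ S₂ → K)
    (Q : MvPolynomial (S₁ ⊕ S₂) ℂ) : aeval y Q =
      eval₂ (aeval (fun h => y (Sum.inr h)) : MvPolynomial S₂ ℂ →ₐ[ℂ] K).toRingHom
        (fun i => y (Sum.inl i)) (sumAlgEquiv ℂ S₁ S₂ Q) := by
  have h : (aeval y : MvPolynomial (S₁ ⊕ S₂) ℂ →ₐ[ℂ] K).toRingHom =
      (eval₂Hom (aeval (fun h => y (Sum.inr h)) : MvPolynomial S₂ ℂ →ₐ[ℂ] K).toRingHom
        (fun i => y (Sum.inl i))).comp (sumAlgEquiv ℂ S₁ S₂).toAlgHom.toRingHom := by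
    apply ringHom_ext
    · intro r
      simp
    · intro v
      rcases v with v | v
      · simp
      · simp
  exact DFunLike.congr_fun h Q

theorem eexp1 (S : FlatCell) (K : Type) [Field K] [Algebra ℂ K] (y : S.V → K)
    (N : MvPolynomial (Finset ℕ) ℂ) : aeval (fun I => S.ev y I) N =
      ∑ v ∈ cfs S N, (v.prod fun i a => y (Sum.inl i) ^ a) *
        aeval (fun h => y (Sum.inr h)) (cf S N v) := by
  rw [← aeval_NP, aeval_sum, eval₂_eq]
  apply Finset.sum_congr rfl
  intro v _
  rw [mul_comm]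
  rfl

theorem eexp2 (S : FlatCell) (N : MvPolynomial (Finset ℕ) ℂ) :
    aeval S.P N = 0 ↔ ∀ v, cf S N v = 0 := by
  have h1 : aeval S.P N = algebraMap (MvPolynomial S.V ℂ) S.F (NP S N) := by
    have h2 : aeval S.P N = aeval S.x (NP S N) := (aeval_NP S S.x N).symm
    rw [h2]
    have h3 : (aeval S.x : MvPolynomial S.V ℂ →ₐ[ℂ] S.F) =
        IsScalarTower.toAlgHom ℂ (MvPolynomial S.V ℂ) S.F := by
      apply algHom_ext
      intro v
      rw [aeval_X]
      rfl
    rw [h3]
    rfl
  rw [h1, map_eq_zero_iff _ (IsFractionRing.injective (MvPolynomial S.V ℂ) S.F),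
    ← map_eq_zero_iff (sumAlgEquiv ℂ ℕ S.G) (sumAlgEquiv ℂ ℕ S.G).injective,
    MvPolynomial.ext_iff]
  simp only [coeff_zero]
  rfl

theorem wh_pol (S : FlatCell) (w : S.V → ℕ) (κ : ℕ) (I : Finset ℕ)
    (h : ∀ μ ∈ (S.pol I).support, (μ.sum fun v n => w v * n) = κ) :
    IsWeightedHomogeneous w (MvPolynomial.map (Nat.castRingHom ℂ) (S.pol I)) κ := by
  intro μ hμ
  rw [coeff_map] at hμ
  have h2 : coeff μ (S.pol I) ≠ 0 := by
    intro h0
    rw [h0, map_zero] at hμ
    exact hμ rfl
  have h3 := h μ (mem_support_iff.mpr h2)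
  rw [← h3, Finsupp.weight_apply]
  apply Finsupp.sum_congr
  intro v _
  rw [smul_eq_mul, mul_comm]

theorem wh_zero (S : FlatCell) (N : MvPolynomial (Finset ℕ) ℂ) (w : S.V → ℕ)
    (h : ∀ I, ∀ μ ∈ (S.pol I).support, (μ.sum fun v n => w v * n) = 0) :
    IsWeightedHomogeneous w (NP S N) 0 := by
  unfold NP
  rw [aeval_def, eval₂_eq]
  refine (weightedHomogeneousSubmodule ℂ w 0).sum_mem fun d hd => ?_
  rw [mem_weightedHomogeneousSubmodule]
  have h4 : IsWeightedHomogeneous w (∏ I ∈ d.support,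
      MvPolynomial.map (Nat.castRingHom ℂ) (S.pol I) ^ d I) (∑ I ∈ d.support, d I • 0) := by
    refine IsWeightedHomogeneous.prod _ _ _ fun I _ => ?_
    exact (wh_pol S w 0 I (h I)).pow (d I)
  simp only [smul_zero, Finset.sum_const_zero] at h4
  exact h4.C_mul _

theorem wh_NP (S : FlatCell) (N : MvPolynomial (Finset ℕ) ℂ) (w : S.V → ℕ) (κ D : ℕ)
    (h : ∀ I, ∀ μ ∈ (S.pol I).support, (μ.sum fun v n => w v * n) = κ)
    (hN : N.IsHomogeneous D) : IsWeightedHomogeneous w (NP S N) (κ * D) := by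
  have h1 : ∀ I, IsWeightedHomogeneous w (MvPolynomial.map (Nat.castRingHom ℂ) (S.pol I)) κ :=
    fun I => wh_pol S w κ I (h I)
  unfold NP
  rw [aeval_def, eval₂_eq]
  refine (weightedHomogeneousSubmodule ℂ w (κ * D)).sum_mem fun d hd => ?_
  rw [mem_weightedHomogeneousSubmodule]
  have h4 : IsWeightedHomogeneous w (∏ I ∈ d.support,
      MvPolynomial.map (Nat.castRingHom ℂ) (S.pol I) ^ d I) (∑ I ∈ d.support, d I • κ) := by
    refine IsWeightedHomogeneous.prod _ _ _ fun I _ => ?_
    exact (h1 I).pow (d I)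
  have h5 : ∑ I ∈ d.support, d I • κ = κ * D := by
    have h6 := hN (mem_support_iff.mp hd)
    rw [← h6, Finsupp.weight_apply, Finsupp.sum, Finset.mul_sum]
    apply Finset.sum_congr rfl
    intro I _
    simp [mul_comm]
  rw [h5] at h4
  exact h4.C_mul _

theorem eexp3 (S : FlatCell) (N : MvPolynomial (Finset ℕ) ℂ) (a : ℕ → ℕ) (b : S.G → ℕ)
    (κ D : ℕ) (h : ∀ I, ∀ μ ∈ (S.pol I).support, (μ.sum fun v n => (Sum.elim a b v) * n) = κ)
    (hN : N.IsHomogeneous D) (v : ℕ →₀ ℕ) (β : S.G →₀ ℕ) (hβ : β ∈ (cf S N v).support) :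
    (v.sum fun i n => a i * n) + (β.sum fun h n => b h * n) = κ * D := by
  have h1 := wh_NP S N (Sum.elim a b) κ D h hN
  rw [mem_support_iff] at hβ
  have h2 : coeff (v.sumElim β) (NP S N) ≠ 0 := by
    rw [← coeff_sumAlg]
    exact hβ
  have h3 := h1 h2
  rw [← h3, Finsupp.weight_apply]
  rw [Finsupp.sum_sumElim]
  simp only [smul_eq_mul]
  congr 1
  · exact Finsupp.sum_congr fun i _ => mul_comm _ _
  · exact Finsupp.sum_congr fun i _ => mul_comm _ _

theorem eexp4 (S : FlatCell) (N : MvPolynomial (Finset ℕ) ℂ) (U : Finset ℕ)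
    (h : ∀ I, S.Δ I ≠ 0 → I ⊆ U) (v : ℕ →₀ ℕ) (hv : cf S N v ≠ 0) : v.support ⊆ U := by
  intro i hi
  by_contra hiU
  obtain ⟨β, hβ⟩ := MvPolynomial.ne_zero_iff.mp hv
  have h2 : coeff (v.sumElim β) (NP S N) ≠ 0 := by
    rw [← coeff_sumAlg]
    exact hβ
  have h3 : (v.sumElim β) (Sum.inl i) = 0 := by
    classical
    have h4 : ∀ I, ∀ μ ∈ (S.pol I).support,
        (μ.sum fun u n => (if u = Sum.inl i then 1 else 0) * n) = 0 := by
      intro I μ hμ
      have hμ' := hμ
      unfold FlatCell.pol at hμ'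
      rw [natpoly_support_mul] at hμ'
      obtain ⟨α, hα, γ, hγ, rfl⟩ := hμ'
      have hΔ : S.Δ I ≠ 0 := by
        intro h0
        rw [h0, map_zero] at hγ
        simp at hγ
      have hi' : i ∉ I := fun h' => hiU (h I hΔ h')
      rw [prod_X_support] at hα
      have e1 : α (Sum.inl i) = 0 := by
        rw [hα, Finsupp.finsetSum_apply]
        apply Finset.sum_eq_zero
        intro j hj
        rw [Finsupp.single_apply, if_neg]
        intro hji
        exact hi' (Sum.inl_injective hji ▸ hj)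
      have e2 : γ (Sum.inl i) = 0 := by
        rw [support_rename_of_injective Sum.inr_injective, Finset.mem_image] at hγ
        obtain ⟨γ', _, rfl⟩ := hγ
        exact Finsupp.mapDomain_of_notMem_range _ _ (by simp)
      rw [Finsupp.sum]
      apply Finset.sum_eq_zero
      intro u _
      split_ifs with hu
      · rw [hu, Finsupp.add_apply, e1, e2, add_zero, mul_zero]
      · rw [zero_mul]
    have h5 := wh_zero S N _ h4 h2
    rw [Finsupp.weight_apply, Finsupp.sum, Finset.sum_eq_zero_iff] at h5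
    by_contra h6
    have h7 := h5 (Sum.inl i) (Finsupp.mem_support_iff.mpr h6)
    simp at h7
    exact h6 (by simpa using h7)
  rw [Finsupp.sumElim_inl] at h3
  exact (Finsupp.mem_support_iff.mp hi) h3

/-- EEXP -/
theorem eexp : EexpStmt :=
  ⟨fun S K _ _ y N => eexp1 S K y N, eexp2, eexp3, eexp4⟩

end ABCT.H28
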