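import Pool.Agent.Helper28_ABCT.Exp

/-!
# EVNZ: nonzero homogeneous polynomials do not vanish at the gap values
-/

open MvPolynomial

namespace ABCT.H28

open ABCT FlatCell

attribute [local instance] MvPolynomial.algebraMvPolynomial

theorem eval₂_sum_inj {σ R W : Type} (vo : R ↪ W) (ι : σ ↪ W) (x : MvPolynomial (σ ⊕ R) ℂ) :
    eval₂ (rename vo : MvPolynomial R ℂ →ₐ[ℂ] MvPolynomial W ℂ).toRingHom (fun h => X (ι h))
      (sumAlgEquiv ℂ σ R x) = rename (Sum.elim ι vo) x := by
  have h : (eval₂Hom (rename vo : MvPolynomial R ℂ →ₐ[ℂ] MvPolynomial W ℂ).toRingHom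
      (fun h => X (ι h))).comp (sumAlgEquiv ℂ σ R).toAlgHom.toRingHom =
      (rename (Sum.elim ι vo) : MvPolynomial (σ ⊕ R) ℂ →ₐ[ℂ] MvPolynomial W ℂ).toRingHom := by
    apply ringHom_ext
    · intro r
      simp
    · intro v
      rcases v with v | v
      · simp
      · simp
  exact DFunLike.congr_fun h x

theorem indep {σ R W : Type} (vo : R ↪ W) (ι : σ ↪ W) (hd : ∀ h r, ι h ≠ vo r)
    (P : MvPolynomial σ (Fr R)) (hP : P ≠ 0) :
    eval₂ (liftF vo) (fun h => xx (ι h)) P ≠ 0 := by
  obtain ⟨⟨x, y⟩, h⟩ := IsLocalization.surj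
    ((nonZeroDivisors (MvPolynomial R ℂ)).map (C (σ := σ))) P
  have hinj : Function.Injective (Sum.elim ι vo) := by
    intro a b hab
    rcases a with a | a <;> rcases b with b | b
    · exact congrArg Sum.inl (ι.injective hab)
    · exact absurd hab (hd a b)
    · exact absurd hab.symm (hd b a)
    · exact congrArg Sum.inr (vo.injective hab)
  have hy : algebraMap (MvPolynomial σ (MvPolynomial R ℂ)) (MvPolynomial σ (Fr R)) y ≠ 0 :=
    (IsLocalization.map_units _ y).ne_zero
  have hx : x ≠ 0 := by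
    rintro rfl
    rw [map_zero] at h
    exact (mul_ne_zero hP hy) h
  have key : eval₂ (liftF vo) (fun h => xx (ι h))
      (algebraMap (MvPolynomial σ (MvPolynomial R ℂ)) (MvPolynomial σ (Fr R)) x) ≠ 0 := by
    have e1 : algebraMap (MvPolynomial σ (MvPolynomial R ℂ)) (MvPolynomial σ (Fr R)) x =
        MvPolynomial.map (algebraMap (MvPolynomial R ℂ) (Fr R)) x := rfl
    rw [e1, eval₂_map]
    have e2 : (liftF vo).comp (algebraMap (MvPolynomial R ℂ) (Fr R)) =
        (algebraMap (MvPolynomial W ℂ) (Fr W)).comp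
          (rename vo : MvPolynomial R ℂ →ₐ[ℂ] MvPolynomial W ℂ).toRingHom := by
      apply RingHom.ext
      intro f
      exact liftF_algebraMap' vo f
    rw [e2]
    have e3 : eval₂ ((algebraMap (MvPolynomial W ℂ) (Fr W)).comp
          (rename vo : MvPolynomial R ℂ →ₐ[ℂ] MvPolynomial W ℂ).toRingHom)
          (fun h => xx (ι h)) x = algebraMap (MvPolynomial W ℂ) (Fr W)
          (eval₂ (rename vo : MvPolynomial R ℂ →ₐ[ℂ] MvPolynomial W ℂ).toRingHom
            (fun h => X (ι h)) x) := by
      rw [hom_eval₂]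
      rfl
    rw [e3]
    intro h0
    have h1 := (map_eq_zero_iff _ (IsFractionRing.injective (MvPolynomial W ℂ) (Fr W))).mp h0
    obtain ⟨x', rfl⟩ := (sumAlgEquiv ℂ σ R).surjective x
    rw [eval₂_sum_inj] at h1
    have h2 := (map_eq_zero_iff _ (rename_injective _ hinj)).mp h1
    apply hx
    rw [h2, map_zero]
  intro h0
  apply key
  have h3 := congrArg (eval₂Hom (liftF vo) (fun h => xx (ι h))) h
  rw [map_mul] at h3
  change eval₂ (liftF vo) (fun h => xx (ι h)) P * _ = eval₂ (liftF vo) (fun h => xx (ι h)) _ at h3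
  rw [h0, zero_mul] at h3
  exact h3.symm

theorem exists_fin {K : Type} [Field K] (P : MvPolynomial ℕ K) (k : ℕ)
    (h : ∀ j, k ≤ j → degreeOf j P = 0) :
    ∃ Q : MvPolynomial (Fin k) K, P = rename Fin.val Q := by
  have h1 : (P.vars : Set ℕ) ⊆ Set.range (Fin.val : Fin k → ℕ) := by
    intro j hj
    have h2 : j < k := by
      by_contra h3
      have h4 := h j (by omega)
      rw [Finset.mem_coe, mem_vars_iff_mem_support] at hj
      obtain ⟨d, hd, hjd⟩ := hj
      have h5 := monomial_le_degreeOf j hd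
      rw [h4] at h5
      exact (Finsupp.mem_support_iff.mp hjd) (Nat.le_zero.mp h5)
    exact ⟨⟨j, h2⟩, rfl⟩
  obtain ⟨Q, hQ⟩ := exists_rename_eq_of_vars_subset_range P Fin.val Fin.val_injective h1
  exact ⟨Q, hQ.symm⟩

/-- EVNZ -/
theorem evnz : EvnzStmt := by
  intro C₀ N' k g d P hg hP h0 hdeg
  obtain ⟨Q, rfl⟩ := exists_fin P k hdeg
  have hQ : Q ≠ 0 := by
    rintro rfl
    exact h0 (map_zero _)
  rw [eval₂_rename]
  rcases hg with ⟨e, he⟩ | ⟨hk, hg0⟩
  · let ι : Fin k ↪ (C₀.app N').flat.V :=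
      ⟨fun h => Sum.inr (C₀.gi N' (e h)), fun a b hab => e.injective
        (Sum.inl_injective ((C₀.ge N').symm.injective (Sum.inr_injective hab)))⟩
    have hd : ∀ h r, ι h ≠ C₀.vo N' r := by
      intro h r hab
      have h1 := (C₀.ge N').symm.injective (Sum.inr_injective hab)
      cases h1
    have h2 := indep (C₀.vo N') ι hd Q hQ
    convert h2 using 2
    funext h
    change eval₂ _ _ (g h) = xx (ι h)
    rw [he h, eval₂_X]
    rfl
  · subst hk
    have hQh : Q.IsHomogeneous d :=
      (IsHomogeneous.rename_isHomogeneous_iff Fin.val_injective).mp hP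
    have hm : ∀ m ∈ Q.support, m = Finsupp.single 0 d := by
      intro m hm
      have h1 := hQh (mem_support_iff.mp hm)
      rw [Finsupp.weight_apply, Finsupp.sum_fintype _ _ (by simp)] at h1
      refine DFunLike.ext _ _ fun i => ?_
      have h2 : i = 0 := Subsingleton.elim _ _
      subst h2
      simpa using h1
    obtain ⟨m, hms⟩ := MvPolynomial.ne_zero_iff.mp hQ
    have hm0 := hm m (mem_support_iff.mpr hms)
    have hQm : Q = monomial m (coeff m Q) := by
      ext m'
      rw [coeff_monomial]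
      split_ifs with h
      · rw [h]
      · by_contra h'
        exact h (hm0.trans (hm m' (mem_support_iff.mpr h')).symm)
    rw [hQm, eval₂_monomial, Finsupp.prod_fintype _ _ (by simp)]
    simp only [Fin.prod_univ_one, Function.comp_apply, Fin.val_zero, hg0, eval₂_one, one_pow,
      mul_one, Fin.isValue]
    exact (map_ne_zero _).mpr hms

end ABCT.H28
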